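import Pool.Agent.Q117.ML.EC

/-!
# The `p`-part of the Birch and Swinnerton-Dyer formula in analytic rank one from Frobenius traces

`E` is an elliptic curve over `ℚ`, `K` an imaginary quadratic field, `M P` a model of `E / K` minimal at the finite
place `P`; `q = |𝓞 K / P|`, `a` is `q` minus the number of affine points of the reduction, `b = q` at the places
of good reduction, `b = 0` at the others, and `tr a b k` is the sum of the `k`-th powers of the roots of
`X² - a X + b`. For `γ > π/2` put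

`S(T) = ∑_P ∑_{k ≥ 1} (tr a b k / (k q^k)) e^{iγ k log q/T} / Γ(1 + k log q/T)`,
`Λ(γ) = ∫_0^∞ (e^{-t} - e^{iγt} / Γ(1 + t)) dt / t`.

If `L(E/K, s)` has a simple zero at `s = 1`, then `T e^{S(T) - Λ(γ)} = L'(E/K, 1) + O(1/T)`, and the identity `(*)` of
the question at the prime number `p` holds if and only if for some integer `n ≥ 1` prime to `p` the distance of

`n · (√|D_K| (#E(K)_tors)² / (Ω R Tam #Sha)) · T e^{S(T) - Λ(γ)}`

from the set of the integers prime to `p` tends to `0` along one sequence of numbers `T → ∞`.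
-/

set_option autoImplicit false

namespace Pool.Agent.Results.MP_23455a_nt.PPartByTraces

open Filter Topology Asymptotics NumberField Classical Pool.Agent.Q45.ML Pool.Agent.Q117.EC
open Pool.Agent.W187.UR

/-- the complex numbers which are integers prime to `p` -/
def Pr (p : ℕ) : Set ℂ := (fun m : ℤ => (m : ℂ)) '' {m : ℤ | ¬ (p : ℤ) ∣ m}

theorem closed_Pr (p : ℕ) : IsClosed (Pr p) :=
  Complex.isClosedEmbedding_intCast.isClosedMap _ (isClosed_discrete _)

/-- `T e^{S(T) - Λ(γ)}` -/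
noncomputable def D {K : Type} [Field K] [NumberField K] (M : Pl K → WeierstrassCurve (𝓞 K))
    (γ T : ℝ) : ℂ := Complex.exp (S M 1 γ T - Lam γ) * T

theorem unit_iff {p : ℕ} [Fact p.Prime] {y : ℚ} (hy : y ≠ 0) (h : padicValRat p y = 0) :
    ¬ (p : ℤ) ∣ y.num ∧ ¬ p ∣ y.den := by
  have hp : p.Prime := Fact.out
  have h1 := padicValRat_def p y
  rw [h] at h1
  have hcop := y.reduced
  constructor
  · intro hd
    have h2 : 1 ≤ padicValInt p y.num :=
      one_le_padicValNat_of_dvd (Int.natAbs_ne_zero.2 (Rat.num_ne_zero.2 hy)) (Int.natCast_dvd.1 hd)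
    have h3 : 1 ≤ padicValNat p y.den := by omega
    have h4 : p ∣ y.den := dvd_of_one_le_padicValNat h3
    have h5 : p ∣ y.num.natAbs := Int.natCast_dvd.1 hd
    exact hp.one_lt.ne' (Nat.eq_one_of_dvd_coprimes hcop h5 h4)
  · intro hd
    have h2 : 1 ≤ padicValNat p y.den := one_le_padicValNat_of_dvd y.den_ne_zero hd
    have h3 : 1 ≤ padicValInt p y.num := by omega
    have h4 : p ∣ y.num.natAbs := dvd_of_one_le_padicValNat (by simpa [padicValInt] using h3)
    exact hp.one_lt.ne' (Nat.eq_one_of_dvd_coprimes hcop h4 hd)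

theorem result (E : WeierstrassCurve ℚ) [E.IsElliptic] (K : Type) [Field K] [NumberField K]
    (_hK : Module.finrank ℚ K = 2) (_hKc : NumberField.IsTotallyComplex K)
    (p : ℕ) [Fact p.Prime] (_hp : p ≠ 2)
    (M : {P : Ideal (𝓞 K) // P.IsPrime ∧ P ≠ ⊥} → WeierstrassCurve (𝓞 K))
    (_hM : ∀ P, (∃ C : WeierstrassCurve.VariableChange K,
        C • E.map (algebraMap ℚ K) = (M P).map (algebraMap (𝓞 K) K)) ∧
      ∀ W : WeierstrassCurve (𝓞 K), (∃ C : WeierstrassCurve.VariableChange K,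
          C • E.map (algebraMap ℚ K) = W.map (algebraMap (𝓞 K) K)) →
        ∀ n : ℕ, (M P).Δ ∈ P.1 ^ n → W.Δ ∈ P.1 ^ n)
    (L : ℂ → ℂ) (hL : ∀ x : ℝ, 1 ≤ x → AnalyticAt ℂ L (x : ℂ))
    (hprod : ∀ s : ℂ, 3 / 2 < s.re → L s = ∏' P : {P : Ideal (𝓞 K) // P.IsPrime ∧ P ≠ ⊥},
         (1 - ((Nat.card (𝓞 K ⧸ P.1) : ℂ)
               - (Nat.card {xy : (𝓞 K ⧸ P.1) × (𝓞 K ⧸ P.1) //
                   ((M P).map (Ideal.Quotient.mk P.1)).toAffine.Equation xy.1 xy.2} : ℂ))
             * (Nat.card (𝓞 K ⧸ P.1) : ℂ) ^ (-s)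
           + (if (M P).Δ ∈ P.1 then 0 else (Nat.card (𝓞 K ⧸ P.1) : ℂ) ^ (1 - 2 * s)))⁻¹)
    (hord : analyticOrderAt L 1 = 1)
    (Ω R : ℝ) (hΩ : 0 < Ω) (hR : 0 < R) (Tam sha tors : ℕ) (hTam : 0 < Tam) (hsha : 0 < sha)
    (htors : 0 < tors) {γ : ℝ} (hγ : Real.pi / 2 < γ) :
    (∀ T : ℝ, 0 < T → Summable fun z => ‖term M 1 γ T z‖) ∧
    (fun T : ℝ => D M γ T - deriv L 1) =O[atTop] (fun T : ℝ => 1 / T) ∧
    ((∃ ρ : ℚ, (ρ : ℂ) = (Real.sqrt |(discr K : ℝ)| : ℂ) * deriv L 1 / ((Ω : ℂ) * R) ∧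
        padicValRat p ρ = padicValRat p ((Tam * sha : ℚ) / (tors : ℚ) ^ 2)) ↔
      ∃ n : ℕ, 0 < n ∧ ¬ p ∣ n ∧ ∃ t : ℕ → ℝ, Tendsto t atTop atTop ∧
        Tendsto (fun i => Metric.infDist ((n : ℂ) *
          (((Real.sqrt |(discr K : ℝ)| * (tors : ℝ) ^ 2 / (Ω * R * (Tam * sha)) : ℝ) : ℂ) *
            D M γ (t i))) (Pr p)) atTop (𝓝 0)) := by
  have hE := eul M
  refine ⟨fun T hT => ?_, ?_⟩
  · simp only [term_eq]
    exact hE.sterm_summable 1 γ hT
  have hF := hasProd_of M hprod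
  have hA1 : AnalyticAt ℂ L ((1 : ℝ) : ℂ) := hL 1 le_rfl
  obtain ⟨m, r, h1, h2, h3⟩ := hE.lawC (F := L) (s₀ := 1) (by norm_num)
    (fun y hy _ => (hL y hy).meromorphicAt) hF hγ
  have hm : m = 1 := by
    rw [hA1.meromorphicOrderAt_eq, Complex.ofReal_one, hord] at h1
    have h5 : ((1 : ℤ) : WithTop ℤ) = (m : WithTop ℤ) := by simpa using h1
    exact (WithTop.coe_inj.1 h5).symm
  subst hm
  have hL0 : L ((1 : ℝ) : ℂ) = 0 := by
    by_contra h
    have := hA1.analyticOrderAt_eq_zero.2 h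
    rw [Complex.ofReal_one, hord] at this
    exact one_ne_zero this
  have hd := deriv_tendsto hA1 hL0 h1 h2 h3
  have hp1 := tendsto_prod h3
  have hcoef : Complex.exp r = deriv L 1 := by
    have h6 : Tendsto (fun T : ℝ => Complex.exp (smooth (fun P : Pl K => (qv P : ℝ))
        (fun P => rt (av M P) (bv M P)) 1 γ T) * T) atTop
        (𝓝 (Complex.exp r * Complex.exp (Lam γ))) := by simpa using hp1
    have h7 := tendsto_nhds_unique h6 hd
    rw [Complex.ofReal_one] at h7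
    exact mul_right_cancel₀ (Complex.exp_ne_zero _) h7
  have hrate : (fun T : ℝ => D M γ T - deriv L 1) =O[atTop] (fun T : ℝ => 1 / T) := by
    have h6 := (prod_rate h3).const_mul_left (Complex.exp (-Lam γ))
    refine h6.congr' ?_ EventuallyEq.rfl
    filter_upwards with T
    rw [smooth_eq, hcoef]
    unfold D
    have e1 : Complex.exp (S M 1 γ T - Lam γ) = Complex.exp (-Lam γ) * Complex.exp (S M 1 γ T) := by
      rw [← Complex.exp_add]; congr 1; ring
    have e2 : Complex.exp (-Lam γ) * Complex.exp (Lam γ) = 1 := by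
      rw [← Complex.exp_add]; simp
    rw [e1]
    simp only [Int.cast_one, one_mul, zpow_one]
    linear_combination (-deriv L 1) * e2
  refine ⟨hrate, ?_⟩
  have hne : deriv L 1 ≠ 0 := by rw [← hcoef]; exact Complex.exp_ne_zero _
  set A : ℝ := Real.sqrt |(discr K : ℝ)| with hAdef
  have hApos : 0 < A := by
    apply Real.sqrt_pos.2
    rw [abs_pos]
    exact_mod_cast discr_ne_zero K
  set c : ℝ := A * (tors : ℝ) ^ 2 / (Ω * R * (Tam * sha)) with hc
  set x : ℂ := (c : ℂ) * deriv L 1 with hx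
  have hTam' : (0 : ℝ) < Tam := by exact_mod_cast hTam
  have hsha' : (0 : ℝ) < sha := by exact_mod_cast hsha
  have htors' : (0 : ℝ) < tors := by exact_mod_cast htors
  have hlim : ∀ n : ℕ, Tendsto (fun T : ℝ => (n : ℂ) * ((c : ℂ) * D M γ T)) atTop
      (𝓝 ((n : ℂ) * x)) := fun n => ((tendsto_of_rate hrate).const_mul _).const_mul _
  have hiff : ∀ n : ℕ, ((n : ℂ) * x ∈ Pr p) ↔ ∃ t : ℕ → ℝ, Tendsto t atTop atTop ∧
      Tendsto (fun i => Metric.infDist ((n : ℂ) * ((c : ℂ) * D M γ (t i))) (Pr p)) atTop (𝓝 0) := by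
    intro n
    refine (closed_tfae (closed_Pr p) ⟨1, 1, ?_, by simp⟩ (hlim n)).out 0 2
    intro h
    have h6 := Int.natAbs_dvd_natAbs.2 h
    have hp : p.Prime := Fact.out
    simp at h6
    exact hp.one_lt.ne' h6
  -- the relation between `x` and `ρ`
  set b : ℚ := (Tam * sha : ℚ) / (tors : ℚ) ^ 2 with hb
  have hTamq : (Tam : ℚ) ≠ 0 := by exact_mod_cast hTam.ne'
  have hshaq : (sha : ℚ) ≠ 0 := by exact_mod_cast hsha.ne'
  have htorsq : (tors : ℚ) ≠ 0 := by exact_mod_cast htors.ne'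
  have hb0 : b ≠ 0 := by
    rw [hb]
    positivity
  have hrel : (A : ℂ) * deriv L 1 / ((Ω : ℂ) * R) = (b : ℂ) * x := by
    have h6 : A / (Ω * R) = (b : ℝ) * c := by
      rw [hc, hb]
      push_cast
      field_simp
    have h7 : (A : ℂ) / ((Ω : ℂ) * R) = (b : ℂ) * c := by exact_mod_cast congrArg Complex.ofReal h6
    rw [hx, mul_div_right_comm, h7, mul_assoc]
  rw [hrel]
  have hc0 : c ≠ 0 := by
    rw [hc]; positivity
  have hx0 : x ≠ 0 := mul_ne_zero (by exact_mod_cast hc0) hne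
  have hbC : (b : ℂ) ≠ 0 := by exact_mod_cast hb0
  constructor
  · rintro ⟨ρ, hρ, hval⟩
    have hρ0 : ρ ≠ 0 := by
      rintro rfl
      rw [Rat.cast_zero] at hρ
      exact mul_ne_zero hbC hx0 hρ.symm
    set y : ℚ := ρ / b with hy
    have hy0 : y ≠ 0 := div_ne_zero hρ0 hb0
    have hyx : (y : ℂ) = x := by
      rw [hy, Rat.cast_div, hρ]
      field_simp
    have hyval : padicValRat p y = 0 := by
      rw [hy, padicValRat.div hρ0 hb0, hval, sub_self]
    obtain ⟨h6, h7⟩ := unit_iff hy0 hyval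
    refine ⟨y.den, y.den_pos, h7, (hiff _).1 ⟨y.num, h6, ?_⟩⟩
    rw [← hyx]
    have : (y.den : ℚ) * y = y.num := by
      rw [mul_comm]; exact Rat.mul_den_eq_num y
    show ((y.num : ℤ) : ℂ) = (y.den : ℂ) * (y : ℂ)
    exact_mod_cast this.symm
  · rintro ⟨n, hn, hpn, ht⟩
    obtain ⟨m, hm, hmx⟩ := (hiff n).2 ht
    have hnq : (n : ℚ) ≠ 0 := by exact_mod_cast hn.ne'
    have hnC : (n : ℂ) ≠ 0 := by exact_mod_cast hn.ne'
    have hmx' : ((m : ℤ) : ℂ) = (n : ℂ) * x := hmx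
    have hm0 : (m : ℚ) ≠ 0 := by
      intro h
      have : (m : ℂ) = 0 := by exact_mod_cast congrArg (Rat.cast : ℚ → ℂ) h
      rw [hmx'] at this
      exact mul_ne_zero hnC hx0 this
    refine ⟨b * (m / n), ?_, ?_⟩
    · push_cast
      rw [hmx']
      field_simp
    · have hn1 : padicValRat p (n : ℚ) = 0 := by
        rw [padicValRat.of_nat, padicValNat.eq_zero_of_not_dvd hpn, Nat.cast_zero]
      have hm1 : padicValRat p (m : ℚ) = 0 := by
        rw [padicValRat.of_int, padicValInt, padicValNat.eq_zero_of_not_dvd, Nat.cast_zero]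
        intro h
        exact hm (Int.natCast_dvd.2 h)
      rw [padicValRat.mul hb0 (div_ne_zero hm0 hnq), padicValRat.div hm0 hnq, hn1, hm1]
      simp

end Pool.Agent.Results.MP_23455a_nt.PPartByTraces
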