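import Mathlib
import Pool.Agent.Q18.P.EC
import Pool.Agent.Q190.RV.StarLead

/-!
# The `p`-part of Birch and Swinnerton-Dyer in analytic rank one and ratios of Euler products

Let `E : y² = x³ + a x + b` be an elliptic curve over a number field `K` (in the problem `K` is imaginary quadratic and `E`
is defined over `ℚ`), `S` a finite set of places containing those which divide `6 (4 a³ + 27 b²)`, and `F` the
incomplete `L`-function `∏_{v ∉ S} (1 - a_v q_v^{-s} + q_v^{1-2s})⁻¹` of `E/K`. In the problem it is known, by modularity,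
that `F` is entire and of polynomial growth in vertical strips. Let `C > 0` be the number with
`F'(1) = C · √|D_K| L'(E/K, 1) / (Ω R)` and let `β > 0` be rational (the right hand side `Tam · #Ш / #tors²` of the
formula). Let

`P*(y) = exp (- ∑_{v ∉ S, q_v^n ≤ y} (α_v^n + β_v^n)/(n q_v^n))`, `D(y) = e^γ log y / (C P*(y))`.

We say that `P*` has ratios, if for all `l` in some set of positive outer measure in `(1, ∞)` the ratio
`P*(y^l) / P*(y)` converges as `y → ∞` (to anything). Nothing is supposed about zeros.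

1. For `λ > 0`, `D(y)` converges to `λ` if and only if `P*` has ratios, `ord_{s=1} F = 1` and `F'(1) = λ C`.
2. (The `p`-parts.) For each set `T` of primes: `D(y)` converges to a rational number `λ > 0` with `v_p(λ) = v_p(β)` for all
   `p ∈ T` if and only if `P*` has ratios, `ord_{s=1} F = 1` and `√|D_K| L'(E/K, 1) / (Ω R)` is such a rational number, which
   is the identity `(*)` of the problem at all `p ∈ T`.
3. If `P*` has ratios and `ord_{s=1} F = 1`, then `F` has no zeros with `Re s > 1`, `F'(1) > 0` and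
   `D(y)` converges to `F'(1) / C`. So for curves of analytic rank one the identities `(*)` are statements on the limit
   of `D(y)` as soon as the ratios converge for enough exponents.
4. (ONE exponent.) If `P*(y^l) ≤ Q P*(y)` for all large `y`, for ONE `l > 1`, then `F` has no zeros with `Re s > 1`;
   `ord_{s=1} F ≤ 1` if `Q < l²`; `ord_{s=1} F = 1` if `Q < l²` and `r P*(y) ≤ P*(y^l)` for some `r > 1` and all large
   `y`, and also if `Q < l³` and the order is odd (root number `-1`).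
-/

set_option autoImplicit false

namespace Pool.Agent.Results.MP_23455a_nt.PPartRatios

open Filter Topology Set Complex NumberField IsDedekindDomain MeasureTheory
open Pool.Agent.Q18.P.EC (Good Euler productStar)

variable {K : Type} [Field K] [NumberField K]

/-- `F` is holomorphic and of polynomial growth in a half plane `Re s > 1 - η`. -/
def Holo (F : ℂ → ℂ) : Prop :=
  ∃ (η C : ℝ) (k : ℕ), 0 < η ∧ ∀ s : ℂ, 1 - η < s.re → DifferentiableAt ℂ F s ∧ ‖F s‖ ≤ C * (1 + ‖s‖) ^ k

/-- `F` has no zeros with `Re s > 1`. -/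
def NoZeros (F : ℂ → ℂ) : Prop := ∀ s : ℂ, 1 < s.re → F s ≠ 0

/-- There is a set `Λ ⊆ (1, ∞)` of positive (outer) Lebesgue measure such that for every `l ∈ Λ` the ratio
`P(y^l) / P(y)` converges as `y → ∞`. -/
def Conv (P : ℝ → ℝ) : Prop :=
  ∃ Λ : Set ℝ, Λ ⊆ Ioi 1 ∧ volume Λ ≠ 0 ∧ ∀ l ∈ Λ, ∃ r : ℝ, Tendsto (fun y : ℝ => P (y ^ l) / P y) atTop (𝓝 r)

/-- `D(y) = e^γ log y / (C P*(y))` -/
noncomputable def D (C : ℝ) (P : ℝ → ℝ) (y : ℝ) : ℝ := Real.exp Real.eulerMascheroniConstant * Real.log y / (C * P y)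

/-- `ord_{s=1} F = 1` and `F'(1) = A` -/
def RankOne (F : ℂ → ℂ) (A : ℝ) : Prop := analyticOrderAt F 1 = 1 ∧ deriv F 1 = (A : ℂ)

/-- `q > 0` has the same `p`-adic valuation as `β` for all `p ∈ T` -/
def Same (T : Set ℕ) (β q : ℚ) : Prop := 0 < q ∧ ∀ p ∈ T, padicValRat p q = padicValRat p β

theorem one_c : (1 : ℝ) = (((1 : ℕ) : ℝ) + 1) / 2 := by norm_num

variable {S : Finset (HeightOneSpectrum (𝓞 K))} {a b : 𝓞 K} {F : ℂ → ℂ}

theorem lead_one {N : ℕ} {α : HeightOneSpectrum (𝓞 K) → Fin N → ℂ} (hH : Pool.Agent.Q190.RV.Holo 1 S α F) (A : ℝ) :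
    Pool.Agent.Q190.RV.Lead 1 F 1 (A : ℂ) ↔ RankOne F A := by
  unfold Pool.Agent.Q190.RV.Lead RankOne
  rw [Complex.ofReal_one, Nat.cast_one]
  refine and_congr_right fun h1 => ?_
  have han : AnalyticAt ℂ F 1 := by
    have := hH.analytic.1
    rwa [Complex.ofReal_one] at this
  have h0 : F 1 = 0 := by
    by_contra hne
    have := han.analyticOrderAt_eq_zero.2 hne
    rw [h1] at this
    exact one_ne_zero this
  have h2 := hasDerivAt_iff_tendsto_slope.1 han.differentiableAt.hasDerivAt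
  have h3 : Tendsto (fun s : ℂ => F s / (s - 1) ^ 1) (𝓝[≠] 1) (𝓝 (deriv F 1)) := by
    refine h2.congr fun s => ?_
    rw [slope_def_field, h0, sub_zero, pow_one]
  exact ⟨fun h4 => tendsto_nhds_unique h3 h4, fun h4 => h4 ▸ h3⟩

/-- **The `p`-part of the Birch and Swinnerton-Dyer formula in analytic rank one and ratios of Euler products.** -/
theorem result (K : Type) [Field K] [NumberField K] (a b : 𝓞 K) (S : Finset (HeightOneSpectrum (𝓞 K)))
    (hS : ∀ v, v ∉ S → Good a b v) (F : ℂ → ℂ) (hE : Euler S a b F) (hF : Holo F) (C : ℝ) (hC : 0 < C) (β : ℚ) :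
    -- (1) the limit
    (∀ x : ℝ, 0 < x → (Tendsto (D C (productStar S a b)) atTop (𝓝 x) ↔
      Conv (productStar S a b) ∧ RankOne F (x * C))) ∧
    -- (2) the formula at a set of primes
    (∀ T : Set ℕ, (∃ q : ℚ, Same T β q ∧ Tendsto (D C (productStar S a b)) atTop (𝓝 q)) ↔
      Conv (productStar S a b) ∧ ∃ q : ℚ, Same T β q ∧ RankOne F (q * C)) ∧
    -- (3) analytic rank one
    (Conv (productStar S a b) → analyticOrderAt F 1 = 1 → NoZeros F ∧
      ∃ x : ℝ, 0 < x ∧ deriv F 1 = ((x * C : ℝ) : ℂ) ∧ Tendsto (D C (productStar S a b)) atTop (𝓝 x)) ∧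
    -- (4) one exponent
    (∀ l Q : ℝ, 1 < l → (∀ᶠ y : ℝ in atTop, productStar S a b (y ^ l) ≤ Q * productStar S a b y) →
      NoZeros F ∧ (Q < l ^ 2 → analyticOrderAt F 1 ≤ 1) ∧
      (Q < l ^ 2 → ∀ r : ℝ, 1 < r → (∀ᶠ y : ℝ in atTop, r * productStar S a b y ≤ productStar S a b (y ^ l)) →
        analyticOrderAt F 1 = 1) ∧
      (Q < l ^ 3 → (∃ m : ℕ, analyticOrderAt F 1 = m ∧ Odd m) → analyticOrderAt F 1 = 1)) := by
  have hP := Pool.Agent.Q18.P.EC.pure (a := a) (b := b) hS
  have hE' := Pool.Agent.Q18.P.EC.euler hS hE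
  have hH : Pool.Agent.Q190.RV.Holo 1 S (Pool.Agent.Q18.P.EC.al a b) F := ⟨hF, hE'⟩
  rw [Pool.Agent.Q18.P.EC.star_eq hS]
  set α := Pool.Agent.Q18.P.EC.al a b with hα
  have hpos : ∀ y, 0 < Pool.Agent.Q18.P.productStar 1 S α y := Pool.Agent.Q18.P.star_pos
  have hD : ∀ x : ℝ, Tendsto (D C (Pool.Agent.Q18.P.productStar 1 S α)) atTop (𝓝 x) ↔
      Tendsto (fun y : ℝ => (Real.exp Real.eulerMascheroniConstant * Real.log y) ^ 1 /
        Pool.Agent.Q18.P.productStar 1 S α y) atTop (𝓝 (x * C)) := by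
    intro x
    constructor
    · intro h
      refine (h.mul_const C).congr fun y => ?_
      have := (hpos y).ne'
      unfold D
      field_simp
    · intro h
      have h1 := h.div_const C
      rw [mul_div_cancel_right₀ _ hC.ne'] at h1
      refine h1.congr fun y => ?_
      have := (hpos y).ne'
      unfold D
      field_simp
  have key : ∀ x : ℝ, 0 < x → (Tendsto (D C (Pool.Agent.Q18.P.productStar 1 S α)) atTop (𝓝 x) ↔
      Conv (Pool.Agent.Q18.P.productStar 1 S α) ∧ RankOne F (x * C)) := by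
    intro x hx
    rw [hD, Pool.Agent.Q190.RV.lead_iff' one_c hP hH 1 (mul_pos hx hC), lead_one hH]
    rfl
  obtain ⟨m, hm⟩ := hH.order_finite' one_c hP.le
  have hm' : analyticOrderAt F 1 = m := by
    rw [Complex.ofReal_one] at hm
    exact hm
  refine ⟨key, fun T => ?_, fun hcv h1 => ?_, fun l Q hl hQ => ?_⟩
  · constructor
    · rintro ⟨q, hq, h⟩
      obtain ⟨h1, h2⟩ := (key q (by exact_mod_cast hq.1)).1 h
      exact ⟨h1, q, hq, h2⟩
    · rintro ⟨h1, q, hq, h2⟩
      exact ⟨q, hq, (key q (by exact_mod_cast hq.1)).2 ⟨h1, h2⟩⟩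
  · have hm1 : analyticOrderAt F ((1 : ℝ) : ℂ) = ((1 : ℕ) : ℕ∞) := by
      rw [Complex.ofReal_one, Nat.cast_one]
      exact h1
    obtain ⟨hz, A, hA, h2, h3⟩ := Pool.Agent.Q190.RV.conv_lead one_c hP hH hm1 hcv
    have h4 : RankOne F (A / C * C) := by
      rw [div_mul_cancel₀ _ hC.ne']
      exact (lead_one hH A).1 ⟨hm1, h2⟩
    exact ⟨hz, A / C, by positivity, h4.2, (key _ (by positivity)).2 ⟨hcv, h4⟩⟩
  · obtain ⟨hz, h1⟩ := Pool.Agent.Q190.RV.s_upper one_c hP.le hH hm hl hQ
    have low : ∀ k : ℕ, Q < l ^ k → m < k := fun k hk =>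
      (pow_lt_pow_iff_right₀ hl).1 (lt_of_le_of_lt h1 hk)
    refine ⟨hz, fun h2 => ?_, fun h2 r hr h3 => ?_, fun h2 => ?_⟩
    · rw [hm']
      have := low 2 h2
      exact_mod_cast (by omega : m ≤ 1)
    · have h4 := low 2 h2
      have h5 := Pool.Agent.Q190.RV.lt_order one_c hP.le hH hm hz hl h3 (k := 0) (by rwa [pow_zero])
      rw [hm']
      exact_mod_cast (by omega : m = 1)
    · rintro ⟨k, hk, hk2⟩
      rw [hm'] at hk
      have h3 : m = k := Nat.cast_inj.1 hk
      have h4 := low 3 h2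
      obtain ⟨t, ht⟩ := hk2
      rw [hm']
      exact_mod_cast (by omega : m = 1)

end Pool.Agent.Results.MP_23455a_nt.PPartRatios
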