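import Mathlib
import Pool.Agent.Q18.P.Val

/-!
# The `p`-part of Birch and Swinnerton-Dyer in analytic rank one and Euler products on one sequence of windows

Let `E : y² = x³ + a x + b` be an elliptic curve over a number field `K` (in the problem `K` is imaginary quadratic and `E`
is defined over `ℚ`), `S` a finite set of places containing those which divide `6 (4 a³ + 27 b²)`, and `F` the
incomplete `L`-function `∏_{v ∉ S} (1 - a_v q_v^{-s} + q_v^{1-2s})⁻¹` of `E/K`. In the problem it is known, by modularity,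
that `F` is entire and of polynomial growth in vertical strips. Let `C > 0` be the number with
`F'(1) = C · √|D_K| L'(E/K, 1) / (Ω R)`, that is, `C = Ω R / √|D_K|` times the rational value at `s = 1` of the inverse of
the Euler factors at `S`. Let

`P(y) = ∏_{v ∉ S, q_v ≤ y} #E(k_v)/q_v`, `P*(y) = exp (- ∑_{v ∉ S, q_v^n ≤ y} (α_v^n + β_v^n)/(n q_v^n))`.

Fix `0 < δ < 1`; the windows are `[Y^(1-δ), Y]`. The Riemann hypothesis for `E/K` is `F(s) ≠ 0` for `Re s > 1`. For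
`λ > 0` let `C(λ)` be the condition: for each `ε > 0` we have `∫ |log (λ C P*(y) / (e^γ log y))| dy/y ≤ ε log Y` over the
windows of arbitrarily large `Y` (one sequence, as sparse as we like). Let `β > 0` be rational (the right hand side
`Tam · #Ш / #tors²` of the formula).

1. (The formula at a set `T` of primes.) The Riemann hypothesis, `ord_{s=1} F = 1`, the rationality of
   `λ = √|D_K| L'(E/K, 1) / (Ω R)`, `λ > 0`, and the identities `(*)` for all `p ∈ T`, i.e. `v_p(λ) = v_p(β)`, hold together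
   if and only if there is a rational `λ > 0` with `v_p(λ) = v_p(β)` for all `p ∈ T` and `C(λ)`. The `λ` is unique.
2. (All primes.) The Riemann hypothesis, `ord_{s=1} F = 1`, and the full formula `λ = β` hold together if and only if
   `C(β)`.
3. The same with `for all large Y` in place of `for arbitrarily large Y`.
4. (The order.) The Riemann hypothesis and `ord_{s=1} F = 1` hold together if and only if
   `∫ max (log P - κ log log y, 0) dy/y ≤ B log Y` for arbitrarily large `Y` and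
   `∫ max (κ' log log y - log P, 0) dy/y ≤ B' log Y` for arbitrarily large `Y`, for some `B`, `B'`; here `κ`, `κ'` are any
   given exponents with `0 < κ' ≤ 1 ≤ κ < 2`; if the order is odd (root number `-1`), any with `κ' ≤ 1 ≤ κ < 3` will do, and
   the lower bound can be omitted.
-/

set_option autoImplicit false

namespace Pool.Agent.Results.MP_23455a_nt.PPartWindows

open Filter Topology Set Complex NumberField IsDedekindDomain MeasureTheory
open Pool.Agent.Q18.P (NoZeros Order Holo MeanBound excess deficit ratio IsLeading)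
open Pool.Agent.Q18.P.EC (Good Euler product productStar)

/-- `∫ |log (A P*(y) / (e^γ log y))| dy/y ≤ ε log Y` over the window `[Y^(1-δ), Y]` -/
def Close (δ : ℝ) (P : ℝ → ℝ) (A ε Y : ℝ) : Prop := MeanBound δ (fun y => |ratio P A 1 y|) ε Y

/-- `q > 0` has the same `p`-adic valuation as `β` for all `p ∈ T` -/
def Same (T : Set ℕ) (β q : ℚ) : Prop := 0 < q ∧ ∀ p ∈ T, padicValRat p q = padicValRat p β

/-- **The `p`-part of the Birch and Swinnerton-Dyer formula in analytic rank one, the Riemann hypothesis, and Euler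
products on one sequence of windows.** -/
theorem result (K : Type) [Field K] [NumberField K] (a b : 𝓞 K) (S : Finset (HeightOneSpectrum (𝓞 K)))
    (hS : ∀ v, v ∉ S → Good a b v) (F : ℂ → ℂ) (hE : Euler S a b F) (hF : Holo 1 F) (δ : ℝ) (h0 : 0 < δ) (h1 : δ < 1)
    (C : ℝ) (hC : 0 < C) (β : ℚ) (hβ : 0 < β) :
    -- (1), (3) the formula at a set of primes
    (∀ T : Set ℕ, List.TFAE [
      NoZeros 1 F ∧ ∃ q : ℚ, Same T β q ∧ IsLeading 1 F 1 ((q * C : ℝ) : ℂ),
      ∃ q : ℚ, Same T β q ∧ ∀ ε : ℝ, 0 < ε → ∃ᶠ Y : ℝ in atTop, Close δ (productStar S a b) (q * C) ε Y,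
      ∃ q : ℚ, Same T β q ∧ ∀ ε : ℝ, 0 < ε → ∀ᶠ Y : ℝ in atTop, Close δ (productStar S a b) (q * C) ε Y]) ∧
    (∀ q q' : ℚ, IsLeading 1 F 1 ((q * C : ℝ) : ℂ) → IsLeading 1 F 1 ((q' * C : ℝ) : ℂ) → q = q') ∧
    -- (2), (3) all primes
    (List.TFAE [
      NoZeros 1 F ∧ IsLeading 1 F 1 ((β * C : ℝ) : ℂ),
      ∀ ε : ℝ, 0 < ε → ∃ᶠ Y : ℝ in atTop, Close δ (productStar S a b) (β * C) ε Y,
      ∀ ε : ℝ, 0 < ε → ∀ᶠ Y : ℝ in atTop, Close δ (productStar S a b) (β * C) ε Y]) ∧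
    -- (4) the order
    (∀ κ κ' : ℝ, 0 < κ' → κ' ≤ 1 → 1 ≤ κ → κ < 2 →
      ((NoZeros 1 F ∧ Order 1 F 1) ↔
        (∃ B : ℝ, ∃ᶠ Y : ℝ in atTop, MeanBound δ (excess (product S a b) κ) B Y) ∧
        ∃ B : ℝ, ∃ᶠ Y : ℝ in atTop, MeanBound δ (deficit (product S a b) κ') B Y)) ∧
    ((∀ m : ℤ, Order 1 F m → 2 ∣ m - 1) → ∀ κ : ℝ, 1 ≤ κ → κ < 3 → List.TFAE [
      NoZeros 1 F ∧ Order 1 F 1,
      ∃ B : ℝ, ∃ᶠ Y : ℝ in atTop, MeanBound δ (excess (product S a b) κ) B Y,
      ∃ B : ℝ, ∀ᶠ Y : ℝ in atTop, MeanBound δ (excess (product S a b) κ) B Y]) := by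
  have hP := Pool.Agent.Q18.P.EC.pure (a := a) (b := b) hS
  have hE' := Pool.Agent.Q18.P.EC.euler hS hE
  rw [Pool.Agent.Q18.P.EC.star_eq hS, Pool.Agent.Q18.P.EC.product_eq hS]
  set α := Pool.Agent.Q18.P.EC.al a b with hα
  have hset : ∀ X : Set ℝ, (∀ A ∈ X, 0 < A) → List.TFAE [
        NoZeros 1 F ∧ ∃ A ∈ X, IsLeading 1 F 1 A,
        ∃ A ∈ X, ∀ ε : ℝ, 0 < ε → ∃ᶠ Y : ℝ in atTop, Close δ (Pool.Agent.Q18.P.productStar 1 S α) A ε Y,
        ∃ A ∈ X, ∀ ε : ℝ, 0 < ε → ∀ᶠ Y : ℝ in atTop, Close δ (Pool.Agent.Q18.P.productStar 1 S α) A ε Y] := by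
    intro X hX
    have t := Pool.Agent.Q18.P.lead_mem Pool.Agent.Q18.P.EC.one_c hP hF hE' h0 h1 1 X hX
    rw [Int.cast_one] at t
    exact t
  have L := Pool.Agent.Q18.P.laws Pool.Agent.Q18.P.EC.one_c hP.le hF hE' h0 h1
  refine ⟨fun T => ?_, fun q q' h h' => ?_, ?_, fun κ κ' g1 g2 g3 g4 => ?_, fun hp κ g1 g2 => ?_⟩
  · have t := hset {A : ℝ | ∃ q : ℚ, Same T β q ∧ A = q * C} (by
      rintro A ⟨q, hq, rfl⟩
      exact mul_pos (by exact_mod_cast hq.1) hC)
    have e1 : ∀ p : ℝ → Prop, (∃ A ∈ {A : ℝ | ∃ q : ℚ, Same T β q ∧ A = q * C}, p A) ↔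
        ∃ q : ℚ, Same T β q ∧ p (q * C) := by
      intro p
      constructor
      · rintro ⟨A, ⟨q, hq, rfl⟩, h⟩
        exact ⟨q, hq, h⟩
      · rintro ⟨q, hq, h⟩
        exact ⟨_, ⟨q, hq, rfl⟩, h⟩
    rw [e1, e1, e1] at t
    exact t
  · have h2 := (Pool.Agent.Q18.P.lead_unique h h').2
    have h3 : (q : ℝ) * C = q' * C := by exact_mod_cast h2
    have h4 : (q : ℝ) = q' := mul_right_cancel₀ hC.ne' h3
    exact_mod_cast h4
  · have hA : (0 : ℝ) < β * C := mul_pos (by exact_mod_cast hβ) hC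
    have t := Pool.Agent.Q18.P.Laws.lead_real Pool.Agent.Q18.P.EC.one_c hP hF hE' h0 h1 1 hA
    rw [Int.cast_one] at t
    exact t
  · have key : (NoZeros 1 F ∧ ∃ m : ℤ, Order 1 F m ∧ κ' ≤ m ∧ (m : ℝ) ≤ κ) ↔
      (∃ B : ℝ, ∃ᶠ Y : ℝ in atTop, MeanBound δ (excess (Pool.Agent.Q18.P.product 1 S α) κ) B Y) ∧
        ∃ B : ℝ, ∃ᶠ Y : ℝ in atTop, MeanBound δ (deficit (Pool.Agent.Q18.P.product 1 S α) κ') B Y :=
      (Pool.Agent.Q18.P.Laws.sandwich Pool.Agent.Q18.P.EC.one_c hP.le hF hE' h0 h1 κ κ').out 0 1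
    rw [← key]
    refine and_congr_right fun _ => ⟨fun h => ⟨1, h, by exact_mod_cast g2, by exact_mod_cast g3⟩, ?_⟩
    rintro ⟨m, hm, l1, l2⟩
    have l3 : (m : ℝ) < 2 := lt_of_le_of_lt l2 g4
    have l4 : (0 : ℝ) < m := lt_of_lt_of_le g1 l1
    have l5 : m < 2 := by exact_mod_cast l3
    have l6 : 0 < m := by exact_mod_cast l4
    have l7 : m = 1 := by omega
    rw [← l7]
    exact hm
  · have t := L.parity hp (by exact_mod_cast g1) (by push_cast; linarith)
    have e1 : (NoZeros 1 F ∧ ∃ m : ℤ, Order 1 F m ∧ m ≤ 1) ↔ NoZeros 1 F ∧ Order 1 F 1 := by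
      refine and_congr_right fun _ => ⟨?_, fun h => ⟨1, h, le_rfl⟩⟩
      rintro ⟨m, hm, hmw⟩
      have h4 := hp m hm
      have h5 := Pool.Agent.Q18.P.order_nonneg hF hm
      have : m = 1 := by omega
      rw [← this]
      exact hm
    rw [e1] at t
    exact t

end Pool.Agent.Results.MP_23455a_nt.PPartWindows
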